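import Mathlib

/-!
Step (6) of the note 5867: a class `{a, a ^ t}` of size two and involutions.
-/

namespace Pool.Agent.H15.SQ

variable {G : Type*} [Group G]

/-- common end of the three cases -/
theorem pow_of_comm {a r s : G} {t : ℕ} (hr : r * r = 1) (hra : r * a = a * r) (hs : s * s = 1)
    (h : a * s * a ^ t = r ∨ a ^ t * s * a = r) : a ^ (2 * (t + 1)) = 1 := by
  have hc : Commute r a := hra
  have hct : Commute r (a ^ t) := hc.pow_right t
  have hc1 : Commute r (a ^ (t + 1)) := hc.pow_right (t + 1)
  have hs' : s = r * (a ^ (t + 1))⁻¹ := by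
    rcases h with h | h
    · have : s = a⁻¹ * r * (a ^ t)⁻¹ := by rw [← h]; group
      rw [this, show a⁻¹ * r = r * a⁻¹ from (hc.inv_right).symm, pow_succ]
      group
    · have : s = (a ^ t)⁻¹ * r * a⁻¹ := by rw [← h]; group
      rw [this, show (a ^ t)⁻¹ * r = r * (a ^ t)⁻¹ from (hct.inv_right).symm, pow_succ']
      group
  have h2 : (a ^ (t + 1))⁻¹ * (a ^ (t + 1))⁻¹ = 1 := by
    have h3 : r * (a ^ (t + 1))⁻¹ * (r * (a ^ (t + 1))⁻¹) = 1 := by rw [← hs']; exact hs
    have h4 : (a ^ (t + 1))⁻¹ * r = r * (a ^ (t + 1))⁻¹ := (hc1.inv_right).symm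
    calc (a ^ (t + 1))⁻¹ * (a ^ (t + 1))⁻¹ = r * r * ((a ^ (t + 1))⁻¹ * (a ^ (t + 1))⁻¹) := by
          rw [hr, one_mul]
      _ = r * (r * (a ^ (t + 1))⁻¹) * (a ^ (t + 1))⁻¹ := by group
      _ = r * ((a ^ (t + 1))⁻¹ * r) * (a ^ (t + 1))⁻¹ := by rw [h4]
      _ = r * (a ^ (t + 1))⁻¹ * (r * (a ^ (t + 1))⁻¹) := by group
      _ = 1 := h3
  have h5 : a ^ (t + 1) * a ^ (t + 1) = 1 := by
    have := congrArg (·⁻¹) h2
    simpa using this
  calc a ^ (2 * (t + 1)) = a ^ (t + 1) * a ^ (t + 1) := by rw [two_mul, pow_add]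
    _ = 1 := h5

/-- Step (6), three involutions. -/
theorem three_involutions {a p q r : G} (hprod : a * p * q * r = 1)
    (hp : p * p = 1) (hq : q * q = 1) (hr : r * r = 1) (t : ℕ)
    (hconj : ∀ x : G, x * a * x⁻¹ = a ∨ x * a * x⁻¹ = a ^ t) (hne : a ^ t ≠ a)
    (hc : ¬ (p * a = a * p ∧ q * a = a * q ∧ r * a = a * r)) :
    a ^ (2 * (t + 1)) = 1 := by
  have hpi : p⁻¹ = p := inv_eq_of_mul_eq_one_left hp
  have hqi : q⁻¹ = q := inv_eq_of_mul_eq_one_left hq
  have hri : r⁻¹ = r := inv_eq_of_mul_eq_one_left hr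
  have ha : a = r * q * p := by
    have h1 : a = r⁻¹ * q⁻¹ * p⁻¹ := by
      have : a * (p * q * r) = 1 := by rw [← hprod]; group
      rw [eq_inv_of_mul_eq_one_left this]
      group
    rwa [hpi, hqi, hri] at h1
  have key : ∀ x : G, x * x = 1 → (x * a = a * x) ∨ (x * a * x = a ^ t ∧ x * a ^ t * x = a) := by
    intro x hx
    have hxi : x⁻¹ = x := inv_eq_of_mul_eq_one_left hx
    rcases hconj x with h | h
    · left
      have : x * a = a * x := by
        calc x * a = (x * a * x⁻¹) * x := by group
          _ = a * x := by rw [h]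
      exact this
    · right
      rw [hxi] at h
      refine ⟨h, ?_⟩
      rw [← h]
      calc x * (x * a * x) * x = (x * x) * a * (x * x) := by group
        _ = a := by rw [hx]; group
  have comm_iff : ∀ x : G, x * x = 1 → x * a = a * x → x * a * x = a := by
    intro x hx h
    rw [h, mul_assoc, hx, mul_one]
  have comm_iff' : ∀ x : G, x * x = 1 → x * a = a * x → x * a ^ t * x = a ^ t := by
    intro x hx h
    have h1 : x * a ^ t = a ^ t * x := (show Commute x a from h).pow_right t
    rw [h1, mul_assoc, hx, mul_one]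
  -- the product acts trivially
  have hact : r * (q * (p * a * p) * q) * r = a := by
    have h1 : r * (q * (p * a * p) * q) * r = (r * q * p) * a * (p * q * r) := by group
    have h2 : p * q * r = a⁻¹ := by
      have : a * (p * q * r) = 1 := by rw [← hprod]; group
      exact (inv_eq_of_mul_eq_one_right this).symm
    rw [h1, ← ha, h2]
    group
  rcases key p hp with p1 | ⟨p1, p2⟩ <;> rcases key q hq with q1 | ⟨q1, q2⟩ <;>
    rcases key r hr with r1 | ⟨r1, r2⟩
  · exact absurd ⟨p1, q1, r1⟩ hc
  · exfalso
    rw [comm_iff p hp p1, comm_iff q hq q1, r1] at hact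
    exact hne hact
  · exfalso
    rw [comm_iff p hp p1, q1, comm_iff' r hr r1] at hact
    exact hne hact
  · -- `p` commutes with `a`
    have h1 : r * (a * p) * r = q * r := by
      calc r * (a * p) * r = r * (r * q * p * p) * r := by rw [← ha]
        _ = (r * r) * q * (p * p) * r := by group
        _ = q * r := by rw [hr, hp]; group
    have h2 : q * r = p * a⁻¹ := by
      have : (q * r) * (a * p) = 1 := by
        calc (q * r) * (a * p) = q * r * (r * q * p * p) := by rw [← ha]
          _ = q * (r * r) * q * (p * p) := by group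
          _ = 1 := by rw [hr, hp, mul_one, mul_one, hq]
      rw [eq_inv_of_mul_eq_one_left this, mul_inv_rev, hpi]
    have h3 : r * (a * p) * r = a ^ t * (r * p * r) := by
      calc r * (a * p) * r = r * a * (r * r) * p * r := by rw [hr]; group
        _ = (r * a * r) * (r * p * r) := by group
        _ = a ^ t * (r * p * r) := by rw [r1]
    refine pow_of_comm hp p1 (s := r * p * r) ?_ (Or.inr ?_)
    · calc (r * p * r) * (r * p * r) = r * p * (r * r) * p * r := by group
        _ = r * (p * p) * r := by rw [hr]; group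
        _ = 1 := by rw [hp, mul_one, hr]
    · rw [← h3, h1, h2]
      group
  · exfalso
    rw [p1, comm_iff' q hq q1, comm_iff' r hr r1] at hact
    exact hne hact
  · -- `q` commutes with `a`
    have h1 : r * a * r = q * p * r := by
      calc r * a * r = r * (r * q * p) * r := by rw [← ha]
        _ = (r * r) * q * p * r := by group
        _ = q * p * r := by rw [hr]; group
    have h2 : p * r = q * a ^ t := by
      rw [← r1, h1]
      calc p * r = (q * q) * p * r := by rw [hq]; group
        _ = q * (q * p * r) := by group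
    have h3 : r * p = (a ^ t)⁻¹ * q := by
      have : (r * p) * (p * r) = 1 := by
        calc (r * p) * (p * r) = r * (p * p) * r := by group
          _ = 1 := by rw [hp, mul_one, hr]
      rw [eq_inv_of_mul_eq_one_left this, h2, mul_inv_rev, hqi]
    have h4 : r * p = (r * q * r) * a := by
      calc r * p = r * (p * r) * r := by
            calc r * p = r * p * (r * r) := by rw [hr, mul_one]
              _ = r * (p * r) * r := by group
        _ = r * (q * a ^ t) * r := by rw [h2]
        _ = r * q * (r * r) * a ^ t * r := by rw [hr]; group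
        _ = (r * q * r) * (r * a ^ t * r) := by group
        _ = (r * q * r) * a := by rw [r2]
    refine pow_of_comm hq q1 (s := r * q * r) ?_ (Or.inr ?_)
    · calc (r * q * r) * (r * q * r) = r * q * (r * r) * q * r := by group
        _ = r * (q * q) * r := by rw [hr]; group
        _ = 1 := by rw [hq, mul_one, hr]
    · calc a ^ t * (r * q * r) * a = a ^ t * ((r * q * r) * a) := by group
        _ = a ^ t * ((a ^ t)⁻¹ * q) := by rw [← h4, h3]
        _ = q := by group
  · -- `r` commutes with `a`
    have h1 : r * a = q * p := by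
      calc r * a = r * (r * q * p) := by rw [← ha]
        _ = (r * r) * q * p := by group
        _ = q * p := by rw [hr]; group
    have h2 : p * q = a⁻¹ * r := by
      have : (p * q) * (r * a) = 1 := by
        rw [h1]
        calc (p * q) * (q * p) = p * (q * q) * p := by group
          _ = 1 := by rw [hq, mul_one, hp]
      rw [eq_inv_of_mul_eq_one_left this, mul_inv_rev, hri]
    have h3 : p * q = (q * r * q) * a ^ t := by
      calc p * q = (q * q) * p * q := by rw [hq]; group
        _ = q * (q * p) * q := by group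
        _ = q * (r * a) * q := by rw [h1]
        _ = q * r * (q * q) * a * q := by rw [hq]; group
        _ = (q * r * q) * (q * a * q) := by group
        _ = (q * r * q) * a ^ t := by rw [q1]
    refine pow_of_comm hr r1 (s := q * r * q) ?_ (Or.inl ?_)
    · calc (q * r * q) * (q * r * q) = q * r * (q * q) * r * q := by group
        _ = q * (r * r) * q := by rw [hq]; group
        _ = 1 := by rw [hr, mul_one, hq]
    · calc a * (q * r * q) * a ^ t = a * ((q * r * q) * a ^ t) := by group
        _ = a * (a⁻¹ * r) := by rw [← h3, h2]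
        _ = r := by group
  · exfalso
    rw [p1, q2, r1] at hact
    exact hne hact

/-- Step (6), two involutions `p, q` and two elements `u, v` of the class `{a, a ^ t}`. -/
theorem two_involutions {a p q u v : G} {t : ℕ} (hu : u = a ∨ u = a ^ t) (hv : v = a ∨ v = a ^ t)
    (hp : p * p = 1) (hq : q * q = 1) (hprod : u * v * p * q = 1 ∨ u * p * v * q = 1)
    (hpt : p * a * p = a ^ t) : a ^ (2 * (t + 1)) = 1 := by
  have hpi : p⁻¹ = p := inv_eq_of_mul_eq_one_left hp
  have hpt' : p * a ^ t * p = a := by
    rw [← hpt]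
    calc p * (p * a * p) * p = (p * p) * a * (p * p) := by group
      _ = a := by rw [hp]; group
  have hpow : ∀ k : ℕ, p * a ^ k * p = a ^ (t * k) := by
    intro k
    have h1 : p * a ^ k * p⁻¹ = (p * a * p⁻¹) ^ k := (conj_pow).symm
    rw [hpi, hpt, ← pow_mul] at h1
    exact h1
  have htt : a ^ (t * t) = a := by rw [← hpow t, hpt']
  -- the main computation
  have main : ∀ c : ℕ, p * q = (a ^ c)⁻¹ → a ^ ((t + 1) * c) = 1 := by
    intro c hcq
    have hq' : q = p * (a ^ c)⁻¹ := by
      rw [← hcq]
      calc q = (p * p) * q := by rw [hp, one_mul]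
        _ = p * (p * q) := by group
    have h1 : p * (a ^ c)⁻¹ * (p * (a ^ c)⁻¹) = 1 := by rw [← hq']; exact hq
    have h2 : p * (a ^ c)⁻¹ * p = (a ^ (t * c))⁻¹ := by
      rw [← hpow c, mul_inv_rev, mul_inv_rev, hpi]
      group
    have h3 : (a ^ (t * c))⁻¹ * (a ^ c)⁻¹ = 1 := by
      rw [← h2]
      calc p * (a ^ c)⁻¹ * p * (a ^ c)⁻¹ = p * (a ^ c)⁻¹ * (p * (a ^ c)⁻¹) := by group
        _ = 1 := h1
    have h4 : a ^ c * a ^ (t * c) = 1 := by
      have := congrArg (·⁻¹) h3
      simpa using this
    calc a ^ ((t + 1) * c) = a ^ c * a ^ (t * c) := by rw [← pow_add]; congr 1; ring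
      _ = 1 := h4
  -- the exponent of the product of two elements of the class
  have hc : ∃ c : ℕ, (c = 2 ∨ c = t + 1 ∨ c = 2 * t) ∧ p * q = (a ^ c)⁻¹ := by
    have hcase : ∀ u' v' : G, (u' = a ∨ u' = a ^ t) → (v' = a ∨ v' = a ^ t) →
        u' * v' * p * q = 1 → ∃ c : ℕ, (c = 2 ∨ c = t + 1 ∨ c = 2 * t) ∧ p * q = (a ^ c)⁻¹ := by
      intro u' v' hu' hv' h
      have h1 : p * q = (u' * v')⁻¹ := by
        have : (u' * v') * (p * q) = 1 := by rw [← h]; group
        exact (inv_eq_of_mul_eq_one_right this).symm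
      rcases hu' with rfl | rfl <;> rcases hv' with rfl | rfl
      · exact ⟨2, Or.inl rfl, by rw [h1, pow_two]⟩
      · exact ⟨t + 1, Or.inr (Or.inl rfl), by rw [h1, pow_succ']⟩
      · exact ⟨t + 1, Or.inr (Or.inl rfl), by rw [h1, pow_succ]⟩
      · exact ⟨2 * t, Or.inr (Or.inr rfl), by rw [h1, two_mul, pow_add]⟩
    rcases hprod with h | h
    · exact hcase u v hu hv h
    · have hv' : p * v * p = a ∨ p * v * p = a ^ t := by
        rcases hv with rfl | rfl
        · right; exact hpt
        · left; exact hpt'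
      refine hcase u (p * v * p) hu hv' ?_
      calc u * (p * v * p) * p * q = u * p * v * (p * p) * q := by group
        _ = u * p * v * q := by rw [hp]; group
        _ = 1 := h
  obtain ⟨c, hc1, hc2⟩ := hc
  have h := main c hc2
  rcases hc1 with rfl | rfl | rfl
  · rw [mul_comm] at h
    exact h
  · have h1 : a ^ ((t + 1) * (t + 1)) = a ^ (t * t) * a ^ (2 * t + 1) := by
      rw [← pow_add]; congr 1; ring
    rw [h1, htt] at h
    rw [← h]
    rw [← pow_succ']
    congr 1
  · have h1 : a ^ ((t + 1) * (2 * t)) = (a ^ (t * t)) ^ 2 * a ^ (2 * t) := by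
      rw [← pow_mul, ← pow_add]; congr 1; ring
    rw [h1, htt, ← pow_add] at h
    rw [← h]
    congr 1
    ring

end Pool.Agent.H15.SQ
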